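import Pool.Agent.helper15.FH.Defs

set_option autoImplicit false

/-!
Module fh:B1 of project FH (MP_8af768_co, helper15): triangle-free graphs whose least eigenvalue is
small in absolute value.  We use the Cayley graph of `(ZMod p)^2` for the points `±(w, w^2)`,
`w ≠ 0`, where `p` is a prime with `p = 2` modulo `3`.
-/

namespace Pool.Agent.helper15.FH

open Finset Pool.Agent.helper32.Cant

noncomputable section

namespace B1

variable (p : ℕ) [Fact p.Prime]

/-- the additive character -/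
abbrev ch (p : ℕ) [Fact p.Prime] : AddChar (ZMod p) ℂ := ZMod.stdAddChar

theorem ch_sum (a : ZMod p) : ∑ x : ZMod p, ch p (x * a) = if a = 0 then (p : ℂ) else 0 := by
  rw [AddChar.sum_mulShift a (ZMod.isPrimitive_stdAddChar p)]
  simp [ZMod.card]

theorem ch_norm (x : ZMod p) : ‖ch p x‖ = 1 := by
  rw [ZMod.stdAddChar_apply]
  exact Circle.norm_coe _

theorem ch_neg (x : ZMod p) : ch p (-x) = (starRingEnd ℂ) (ch p x) := by
  have h : ch p (-x) = (ch p x)⁻¹ := AddChar.map_neg_eq_inv _ _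
  rw [h, Complex.inv_def, Complex.normSq_eq_norm_sq, ch_norm]
  simp

/-- the eigenvalue of the part `w ↦ (w, w^2)` -/
def lam (a b : ZMod p) : ℝ := ∑ w ∈ univ.erase (0 : ZMod p), (ch p (a * w + b * w ^ 2)).re

theorem gauss_abs {a b : ZMod p} (hp : (2 : ZMod p) ≠ 0) (hb : b ≠ 0) :
    ‖∑ w : ZMod p, ch p (a * w + b * w ^ 2)‖ ^ 2 = p := by
  set S := ∑ w : ZMod p, ch p (a * w + b * w ^ 2) with hS
  have h1 : (starRingEnd ℂ) S * S = (p : ℂ) := by
    have h2 : (starRingEnd ℂ) S = ∑ v : ZMod p, ch p (-(a * v + b * v ^ 2)) := by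
      rw [hS, map_sum]
      exact sum_congr rfl fun v _ => (ch_neg p _).symm
    rw [h2, hS, sum_mul]
    have h3 : ∀ v : ZMod p, ch p (-(a * v + b * v ^ 2)) * ∑ w : ZMod p, ch p (a * w + b * w ^ 2)
        = ∑ h : ZMod p, ch p (a * h + b * h ^ 2) * ch p (v * (2 * b * h)) := by
      intro v
      rw [mul_sum, ← Equiv.sum_comp (Equiv.addRight v)
        (fun w => ch p (-(a * v + b * v ^ 2)) * ch p (a * w + b * w ^ 2))]
      refine sum_congr rfl fun h _ => ?_
      rw [← AddChar.map_add_eq_mul, ← AddChar.map_add_eq_mul]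
      congr 1
      simp only [Equiv.coe_addRight]
      ring
    rw [sum_congr rfl fun v _ => h3 v, sum_comm]
    have h4 : ∀ h : ZMod p, ∑ v : ZMod p, ch p (a * h + b * h ^ 2) * ch p (v * (2 * b * h))
        = if h = 0 then (p : ℂ) else 0 := by
      intro h
      rw [← mul_sum, ch_sum]
      by_cases hh : h = 0
      · subst hh
        simp
      · rw [if_neg hh, if_neg (mul_ne_zero (mul_ne_zero hp hb) hh), mul_zero]
    rw [sum_congr rfl fun h _ => h4 h]
    simp
  have h5 : ((‖S‖ ^ 2 : ℝ) : ℂ) = (p : ℂ) := by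
    rw [← h1, mul_comm, Complex.mul_conj, Complex.normSq_eq_norm_sq]
  exact_mod_cast h5

theorem lam_eq (a b : ZMod p) :
    lam p a b = (∑ w : ZMod p, ch p (a * w + b * w ^ 2)).re - 1 := by
  have h := Finset.sum_erase_add (univ : Finset (ZMod p))
    (fun w => (ch p (a * w + b * w ^ 2)).re) (Finset.mem_univ 0)
  rw [Complex.re_sum, ← h]
  simp [lam]

theorem lam_zero : lam p 0 0 = (p : ℝ) - 1 := by
  rw [lam_eq]
  simp [ZMod.card]

theorem lam_ge (hp : (2 : ZMod p) ≠ 0) (a b : ZMod p) : -(√p + 1) ≤ lam p a b := by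
  rw [lam_eq]
  have hs : 0 ≤ √(p : ℝ) := Real.sqrt_nonneg _
  by_cases hb : b = 0
  · subst hb
    have h : ∑ w : ZMod p, ch p (a * w + 0 * w ^ 2) = if a = 0 then (p : ℂ) else 0 := by
      rw [← ch_sum]
      refine sum_congr rfl fun w _ => ?_
      congr 1
      ring
    rw [h]
    split_ifs
    · simp only [Complex.natCast_re]
      have : (0 : ℝ) ≤ p := Nat.cast_nonneg _
      linarith
    · simp only [Complex.zero_re]
      linarith
  · have h1 := gauss_abs p (a := a) hp hb
    have h2 : ‖∑ w : ZMod p, ch p (a * w + b * w ^ 2)‖ = √p := by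
      rw [← h1, Real.sqrt_sq (norm_nonneg _)]
    have h3 := (abs_le.1 (Complex.abs_re_le_norm (∑ w : ZMod p, ch p (a * w + b * w ^ 2)))).1
    rw [h2] at h3
    linarith

/-- the graph -/
def Gr : SimpleGraph (ZMod p × ZMod p) where
  Adj x y := ∃ w : ZMod p, w ≠ 0 ∧ (x - y = (w, w ^ 2) ∨ x - y = (-w, -w ^ 2))
  symm := ⟨by
    rintro x y ⟨w, hw, h⟩
    refine ⟨w, hw, ?_⟩
    rcases h with h | h
    · right
      rw [← neg_sub x y, h]
      rfl
    · left
      rw [← neg_sub x y, h]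
      simp [Prod.ext_iff]⟩
  loopless := ⟨by
    rintro x ⟨w, hw, h⟩
    rcases h with h | h
    · rw [sub_self] at h
      exact hw (Prod.ext_iff.1 h).1.symm
    · rw [sub_self] at h
      have := (Prod.ext_iff.1 h).1
      simp only [Prod.fst_zero] at this
      exact hw (neg_eq_zero.1 this.symm)⟩

theorem ind_adj (hp : (2 : ZMod p) ≠ 0) (x y : ZMod p × ZMod p) :
    ind ((Gr p).Adj x y) = ∑ w ∈ univ.erase (0 : ZMod p),
      (ind (x - y = (w, w ^ 2)) + ind (x - y = (-w, -w ^ 2))) := by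
  by_cases h : (Gr p).Adj x y
  · rw [ind_of h]
    obtain ⟨w, hw, h⟩ := h
    rcases h with h | h
    · rw [Finset.sum_eq_single w]
      · rw [ind_of h, ind_of_not, add_zero]
        intro h2
        rw [h] at h2
        have h3 := (Prod.ext_iff.1 h2).1
        simp only at h3
        have h4 : 2 * w = 0 := by linear_combination h3
        exact (mul_ne_zero hp hw) h4
      · intro v hv hvw
        rw [ind_of_not, ind_of_not, add_zero]
        · intro h2
          rw [h] at h2
          have h3 := (Prod.ext_iff.1 h2).1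
          have h4 := (Prod.ext_iff.1 h2).2
          simp only at h3 h4
          have h5 : 2 * w ^ 2 = 0 := by
            rw [h3] at h4 ⊢
            linear_combination h4
          exact (mul_ne_zero hp (pow_ne_zero 2 hw)) h5
        · intro h2
          rw [h] at h2
          exact hvw (Prod.ext_iff.1 h2).1.symm
      · intro h2
        exact absurd (Finset.mem_erase.2 ⟨hw, Finset.mem_univ _⟩) h2
    · rw [Finset.sum_eq_single w]
      · rw [ind_of h, ind_of_not, zero_add]
        intro h2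
        rw [h] at h2
        have h3 := (Prod.ext_iff.1 h2).1
        simp only at h3
        have h4 : 2 * w = 0 := by linear_combination -h3
        exact (mul_ne_zero hp hw) h4
      · intro v hv hvw
        rw [ind_of_not, ind_of_not, add_zero]
        · intro h2
          rw [h] at h2
          have h3 := (Prod.ext_iff.1 h2).1
          simp only [neg_inj] at h3
          exact hvw h3.symm
        · intro h2
          rw [h] at h2
          have h3 := (Prod.ext_iff.1 h2).1
          have h4 := (Prod.ext_iff.1 h2).2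
          simp only at h3 h4
          have h5 : 2 * w ^ 2 = 0 := by
            rw [← h3] at h4
            linear_combination -h4
          exact (mul_ne_zero hp (pow_ne_zero 2 hw)) h5
      · intro h2
        exact absurd (Finset.mem_erase.2 ⟨hw, Finset.mem_univ _⟩) h2
  · rw [ind_of_not h]
    symm
    refine Finset.sum_eq_zero fun w hw => ?_
    have hw0 := (Finset.mem_erase.1 hw).1
    rw [ind_of_not, ind_of_not, add_zero]
    · exact fun h2 => h ⟨w, hw0, Or.inr h2⟩
    · exact fun h2 => h ⟨w, hw0, Or.inl h2⟩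

theorem ind_eq_ite (q : Prop) [Decidable q] : ind q = if q then 1 else 0 := by
  unfold ind
  congr

theorem reg (hp : (2 : ZMod p) ≠ 0) (x : ZMod p × ZMod p) :
    ∑ y, ind ((Gr p).Adj x y) = ((2 * (p - 1) : ℕ) : ℝ) := by
  have h1 : ∀ v : ZMod p × ZMod p, ∑ y, ind (x - y = v) = 1 := by
    intro v
    rw [Finset.sum_eq_single (x - v)]
    · rw [ind_of]
      simp
    · intro y _ hy
      rw [ind_of_not]
      intro h
      apply hy
      rw [← h]
      simp
    · intro h
      exact absurd (Finset.mem_univ _) h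
  rw [sum_congr rfl fun y _ => ind_adj p hp x y, sum_comm]
  simp only [sum_add_distrib, h1]
  rw [← sum_add_distrib, sum_const, card_erase_of_mem (mem_univ _), card_univ, ZMod.card]
  have := (Fact.out : p.Prime).one_lt
  rw [nsmul_eq_mul]
  push_cast
  ring

theorem no_root (h3 : p % 3 = 2) {u v : ZMod p} (hu : u ≠ 0) (hv : v ≠ 0)
    (h : u ^ 2 + u * v + v ^ 2 = 0) : False := by
  set t := u * v⁻¹ with ht
  have ht1 : t ^ 2 + t + 1 = 0 := by
    have : t ^ 2 + t + 1 = (u ^ 2 + u * v + v ^ 2) * (v⁻¹) ^ 2 := by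
      rw [ht]
      field_simp
    rw [this, h, zero_mul]
  have ht3 : t ^ 3 = 1 := by linear_combination (t - 1) * ht1
  have htn : t ≠ 1 := by
    intro h1
    rw [h1] at ht1
    have h4 : (3 : ZMod p) = 0 := by linear_combination ht1
    have h5 : (p : ℕ) ∣ 3 := by
      rw [← ZMod.natCast_eq_zero_iff]
      exact_mod_cast h4
    have h6 := (Nat.dvd_prime Nat.prime_three).1 h5
    rcases h6 with h6 | h6
    · omega
    · omega
  have hord : orderOf t = 3 := orderOf_eq_prime ht3 htn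
  have ht0 : t ≠ 0 := mul_ne_zero hu (inv_ne_zero hv)
  have hd := ZMod.orderOf_dvd_card_sub_one ht0
  rw [hord] at hd
  omega

theorem tf (hp : (2 : ZMod p) ≠ 0) (h3 : p % 3 = 2) (x y z : ZMod p × ZMod p)
    (hxy : (Gr p).Adj x y) (hyz : (Gr p).Adj y z) (hxz : (Gr p).Adj x z) : False := by
  obtain ⟨u, hu, h1⟩ := hxy
  obtain ⟨v, hv, h2⟩ := hyz
  obtain ⟨w, hw, h4⟩ := hxz
  have e : x - z = (x - y) + (y - z) := by ring
  have key : ∀ s t r : ZMod p, (s = 1 ∨ s = -1) → (t = 1 ∨ t = -1) → (r = 1 ∨ r = -1) →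
      r * w = s * u + t * v → r * w ^ 2 = s * u ^ 2 + t * v ^ 2 → False := by
    intro s t r hs ht hr ha hb
    have n1 : 2 * (u * v) ≠ 0 := mul_ne_zero hp (mul_ne_zero hu hv)
    have n2 : 2 * v ≠ 0 := mul_ne_zero hp hv
    have n3 : 2 * u ≠ 0 := mul_ne_zero hp hu
    rcases hs with rfl | rfl <;> rcases ht with rfl | rfl <;> rcases hr with rfl | rfl
    · -- + + +
      apply n1
      have : w = u + v := by linear_combination ha
      rw [this] at hb
      linear_combination hb
    · -- + + -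
      refine no_root p h3 hu hv ?_
      have : w = -(u + v) := by linear_combination -ha
      rw [this] at hb
      have h5 : 2 * (u ^ 2 + u * v + v ^ 2) = 0 := by linear_combination -hb
      exact (mul_eq_zero.1 h5).resolve_left hp
    · -- + - +
      have e1 : w = u - v := by linear_combination ha
      have h5 : w * (2 * v) = 0 := by
        have : w * w = w * (u + v) := by
          have e2 : w * (u + v) = (u - v) * (u + v) := by rw [← e1]
          rw [e2]
          linear_combination hb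
        linear_combination -this + w * e1
      rcases mul_eq_zero.1 h5 with h | h
      · exact hw h
      · exact n2 h
    · -- + - -
      have e1 : w = v - u := by linear_combination -ha
      have h5 : w * (2 * u) = 0 := by
        have : w * w = w * (u + v) := by
          have e2 : w * (u + v) = (v - u) * (u + v) := by rw [← e1]
          rw [e2]
          linear_combination -hb
        linear_combination -this + w * e1
      rcases mul_eq_zero.1 h5 with h | h
      · exact hw h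
      · exact n3 h
    · -- - + +
      have e1 : w = v - u := by linear_combination ha
      have h5 : w * (2 * u) = 0 := by
        have : w * w = w * (u + v) := by
          have e2 : w * (u + v) = (v - u) * (u + v) := by rw [← e1]
          rw [e2]
          linear_combination hb
        linear_combination -this + w * e1
      rcases mul_eq_zero.1 h5 with h | h
      · exact hw h
      · exact n3 h
    · -- - + -
      have e1 : w = u - v := by linear_combination -ha
      have h5 : w * (2 * v) = 0 := by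
        have : w * w = w * (u + v) := by
          have e2 : w * (u + v) = (u - v) * (u + v) := by rw [← e1]
          rw [e2]
          linear_combination -hb
        linear_combination -this + w * e1
      rcases mul_eq_zero.1 h5 with h | h
      · exact hw h
      · exact n2 h
    · -- - - +
      refine no_root p h3 hu hv ?_
      have : w = -(u + v) := by linear_combination ha
      rw [this] at hb
      have h5 : 2 * (u ^ 2 + u * v + v ^ 2) = 0 := by linear_combination hb
      exact (mul_eq_zero.1 h5).resolve_left hp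
    · -- - - -
      apply n1
      have : w = u + v := by linear_combination -ha
      rw [this] at hb
      linear_combination -hb
  have rep : ∀ (d : ZMod p × ZMod p) (w : ZMod p), (d = (w, w ^ 2) ∨ d = (-w, -w ^ 2)) →
      ∃ s : ZMod p, (s = 1 ∨ s = -1) ∧ d.1 = s * w ∧ d.2 = s * w ^ 2 := by
    rintro d w (h | h)
    · exact ⟨1, Or.inl rfl, by rw [h]; simp, by rw [h]; simp⟩
    · exact ⟨-1, Or.inr rfl, by rw [h]; simp, by rw [h]; simp⟩
  obtain ⟨s, hs, hs1, hs2⟩ := rep _ _ h1
  obtain ⟨t, ht, ht1, ht2⟩ := rep _ _ h2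
  obtain ⟨r, hr, hr1, hr2⟩ := rep _ _ h4
  refine key s t r hs ht hr ?_ ?_
  · rw [← hr1, ← hs1, ← ht1, e]
    rfl
  · rw [← hr2, ← hs2, ← ht2, e]
    rfl

/-- orthogonality on pairs -/
theorem orth (d : ZMod p × ZMod p) :
    ∑ ab : ZMod p × ZMod p, (ch p (ab.1 * d.1 + ab.2 * d.2)).re = (p : ℝ) ^ 2 * ind (d = 0) := by
  rw [← Complex.re_sum]
  have h1 : ∑ ab : ZMod p × ZMod p, ch p (ab.1 * d.1 + ab.2 * d.2)
      = (∑ a : ZMod p, ch p (a * d.1)) * (∑ b : ZMod p, ch p (b * d.2)) := by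
    rw [Finset.sum_mul_sum, ← Finset.univ_product_univ, Finset.sum_product]
    refine sum_congr rfl fun a _ => sum_congr rfl fun b _ => ?_
    rw [AddChar.map_add_eq_mul]
  rw [h1, ch_sum, ch_sum]
  by_cases h : d = 0
  · subst h
    rw [ind_of rfl]
    simp only [Prod.fst_zero, Prod.snd_zero, if_true]
    rw [← Nat.cast_mul]
    simp only [Complex.natCast_re]
    push_cast
    ring
  · rw [ind_of_not h]
    by_cases h2 : d.1 = 0
    · have h3 : d.2 ≠ 0 := fun h3 => h (Prod.ext h2 h3)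
      rw [if_neg h3]
      simp
    · rw [if_neg h2]
      simp

/-- the coefficients -/
def cf (ρ : ℝ) (ab : ZMod p × ZMod p) : ℝ :=
  1 + ρ / ((2 * (p - 1) : ℕ) : ℝ) * (2 * lam p ab.1 ab.2)

theorem fourier (hp : (2 : ZMod p) ≠ 0) (ρ : ℝ) (x y : ZMod p × ZMod p) :
    ∑ ab : ZMod p × ZMod p, cf p ρ ab *
      (ch p (ab.1 * (x - y).1 + ab.2 * (x - y).2)).re
      = (p : ℝ) ^ 2 * (ind (x = y) + ρ / ((2 * (p - 1) : ℕ) : ℝ) * ind ((Gr p).Adj x y)) := by
  set d := x - y with hd
  have h1 : ∀ ab : ZMod p × ZMod p, 2 * lam p ab.1 ab.2 * (ch p (ab.1 * d.1 + ab.2 * d.2)).re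
      = ∑ w ∈ univ.erase (0 : ZMod p),
        ((ch p (ab.1 * (d - (w, w ^ 2)).1 + ab.2 * (d - (w, w ^ 2)).2)).re
          + (ch p (ab.1 * (d - (-w, -w ^ 2)).1 + ab.2 * (d - (-w, -w ^ 2)).2)).re) := by
    intro ab
    unfold lam
    rw [mul_sum, sum_mul]
    refine sum_congr rfl fun w _ => ?_
    set A := ch p (ab.1 * w + ab.2 * w ^ 2) with hA
    set B := ch p (ab.1 * d.1 + ab.2 * d.2) with hB
    have e1 : ch p (ab.1 * (d - (w, w ^ 2)).1 + ab.2 * (d - (w, w ^ 2)).2)
        = B * (starRingEnd ℂ) A := by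
      rw [hA, hB, ← ch_neg, ← AddChar.map_add_eq_mul]
      congr 1
      simp only [Prod.fst_sub, Prod.snd_sub]
      ring
    have e2 : ch p (ab.1 * (d - (-w, -w ^ 2)).1 + ab.2 * (d - (-w, -w ^ 2)).2)
        = B * A := by
      rw [hA, hB, ← AddChar.map_add_eq_mul]
      congr 1
      simp only [Prod.fst_sub, Prod.snd_sub]
      ring
    rw [e1, e2]
    simp only [Complex.mul_re, Complex.conj_re, Complex.conj_im]
    ring
  have h2 : ∀ ab : ZMod p × ZMod p, cf p ρ ab * (ch p (ab.1 * d.1 + ab.2 * d.2)).re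
      = (ch p (ab.1 * d.1 + ab.2 * d.2)).re + ρ / ((2 * (p - 1) : ℕ) : ℝ) *
        (2 * lam p ab.1 ab.2 * (ch p (ab.1 * d.1 + ab.2 * d.2)).re) := by
    intro ab
    unfold cf
    ring
  rw [sum_congr rfl fun ab _ => h2 ab, sum_add_distrib, ← mul_sum, orth,
    sum_congr rfl fun ab _ => h1 ab, sum_comm]
  have h3 : ∀ w ∈ univ.erase (0 : ZMod p), ∑ ab : ZMod p × ZMod p,
      ((ch p (ab.1 * (d - (w, w ^ 2)).1 + ab.2 * (d - (w, w ^ 2)).2)).re
          + (ch p (ab.1 * (d - (-w, -w ^ 2)).1 + ab.2 * (d - (-w, -w ^ 2)).2)).re)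
      = (p : ℝ) ^ 2 * (ind (d = (w, w ^ 2)) + ind (d = (-w, -w ^ 2))) := by
    intro w _
    rw [sum_add_distrib, orth, orth, ind_congr (sub_eq_zero (a := d) (b := (w, w ^ 2))),
      ind_congr (sub_eq_zero (a := d) (b := (-w, -w ^ 2)))]
    ring
  rw [sum_congr rfl h3, ← mul_sum, ← ind_adj p hp x y, hd,
    ind_congr (sub_eq_zero (a := x) (b := y))]
  ring

theorem good (hp : (2 : ZMod p) ≠ 0) (h3 : p % 3 = 2) (ρ : ℝ) (hρ : 0 ≤ ρ)
    (hρp : ρ + 1 ≤ √(p : ℝ)) : Good (ZMod p × ZMod p) (Gr p) (2 * (p - 1)) ρ := by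
  have hp1 : 1 < p := (Fact.out : p.Prime).one_lt
  have hp1' : (1 : ℝ) < p := by exact_mod_cast hp1
  have hp0 : (0 : ℝ) < p := by linarith
  have hg : ((2 * (p - 1) : ℕ) : ℝ) = 2 * ((p : ℝ) - 1) := by
    rw [Nat.cast_mul, Nat.cast_sub hp1.le]
    simp
  have hgpos : (0 : ℝ) < 2 * ((p : ℝ) - 1) := by linarith
  have hsq : √(p : ℝ) ^ 2 = p := Real.sq_sqrt hp0.le
  have hs0 : 0 ≤ √(p : ℝ) := Real.sqrt_nonneg _
  have hcf : ∀ ab, 0 ≤ cf p ρ ab := by
    intro ab
    unfold cf
    rw [hg]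
    have h1 := lam_ge p hp ab.1 ab.2
    have h2 : ρ * (√(p : ℝ) + 1) ≤ (p : ℝ) - 1 := by
      have : ρ * (√(p : ℝ) + 1) ≤ (√(p : ℝ) - 1) * (√(p : ℝ) + 1) :=
        mul_le_mul_of_nonneg_right (by linarith) (by linarith)
      nlinarith
    have h4 : ρ / (2 * ((p : ℝ) - 1)) * (2 * lam p ab.1 ab.2)
        = (ρ * lam p ab.1 ab.2) / ((p : ℝ) - 1) := by
      have : (p : ℝ) - 1 ≠ 0 := by linarith
      field_simp
    rw [h4]
    have h5 : -((p : ℝ) - 1) ≤ ρ * lam p ab.1 ab.2 := by
      have : ρ * (-(√(p : ℝ) + 1)) ≤ ρ * lam p ab.1 ab.2 := mul_le_mul_of_nonneg_left h1 hρ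
      linarith
    have h6 : -1 ≤ (ρ * lam p ab.1 ab.2) / ((p : ℝ) - 1) := by
      rw [le_div_iff₀ (by linarith)]
      linarith
    linarith
  refine ⟨reg p hp, tf p hp h3, ?_⟩
  classical
  let wt : ZMod p × ZMod p → ℝ := fun ab => if ab = 0 then 0 else cf p ρ ab / (p : ℝ) ^ 2
  have hwt : ∀ ab, 0 ≤ wt ab := by
    intro ab
    simp only [wt]
    split_ifs
    · exact le_refl _
    · exact div_nonneg (hcf ab) (sq_nonneg _)
  let ψ : (ZMod p × ZMod p) × Bool → ZMod p × ZMod p → ℝ := fun r x =>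
    √(wt r.1) * (if r.2 then (ch p (r.1.1 * x.1 + r.1.2 * x.2)).re
      else (ch p (r.1.1 * x.1 + r.1.2 * x.2)).im)
  refine ⟨(ZMod p × ZMod p) × Bool, inferInstance, ψ, fun x y => ?_⟩
  have h1 : ∑ r, ψ r x * ψ r y = ∑ ab : ZMod p × ZMod p,
      wt ab * (ch p (ab.1 * (x - y).1 + ab.2 * (x - y).2)).re := by
    rw [← Finset.univ_product_univ, Finset.sum_product]
    refine sum_congr rfl fun ab _ => ?_
    have e1 : ch p (ab.1 * (x - y).1 + ab.2 * (x - y).2)
        = ch p (ab.1 * x.1 + ab.2 * x.2) * (starRingEnd ℂ) (ch p (ab.1 * y.1 + ab.2 * y.2)) := by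
      rw [← ch_neg, ← AddChar.map_add_eq_mul]
      congr 1
      simp only [Prod.fst_sub, Prod.snd_sub]
      ring
    have e2 : √(wt ab) * √(wt ab) = wt ab := Real.mul_self_sqrt (hwt ab)
    rw [e1]
    simp only [ψ, Fintype.sum_bool, if_true, Bool.false_eq_true, if_false, Complex.mul_re,
      Complex.conj_re, Complex.conj_im]
    linear_combination ((ch p (ab.1 * x.1 + ab.2 * x.2)).re * (ch p (ab.1 * y.1 + ab.2 * y.2)).re
      + (ch p (ab.1 * x.1 + ab.2 * x.2)).im * (ch p (ab.1 * y.1 + ab.2 * y.2)).im) * e2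
  have h2 := fourier p hp ρ x y
  have h5 : ∑ ab : ZMod p × ZMod p, cf p ρ ab * (ch p (ab.1 * (x - y).1 + ab.2 * (x - y).2)).re
      = (1 + ρ) + (p : ℝ) ^ 2 * ∑ ab : ZMod p × ZMod p,
        wt ab * (ch p (ab.1 * (x - y).1 + ab.2 * (x - y).2)).re := by
    rw [← Finset.add_sum_erase univ _ (Finset.mem_univ (0 : ZMod p × ZMod p)),
      ← Finset.add_sum_erase univ (fun ab => wt ab *
        (ch p (ab.1 * (x - y).1 + ab.2 * (x - y).2)).re) (Finset.mem_univ (0 : ZMod p × ZMod p))]
    have e0 : cf p ρ 0 = 1 + ρ := by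
      unfold cf
      simp only [Prod.fst_zero, Prod.snd_zero]
      rw [lam_zero, hg]
      have : (p : ℝ) - 1 ≠ 0 := by linarith
      field_simp
    have e3 : wt 0 = 0 := by simp [wt]
    rw [e0, e3]
    simp only [Prod.fst_zero, Prod.snd_zero, zero_mul, add_zero, AddChar.map_zero_eq_one,
      Complex.one_re, mul_one, zero_add]
    congr 1
    rw [mul_sum]
    refine sum_congr rfl fun ab hab => ?_
    have hab0 := (Finset.mem_erase.1 hab).1
    simp only [wt, if_neg hab0]
    field_simp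
  rw [h1]
  rw [h2] at h5
  have hc : (Fintype.card (ZMod p × ZMod p) : ℝ) = (p : ℝ) ^ 2 := by
    rw [Fintype.card_prod, ZMod.card]
    push_cast
    ring
  rw [hc]
  have hpp : (p : ℝ) ^ 2 ≠ 0 := by positivity
  field_simp
  linear_combination h5

end B1

theorem bch (ρ L0 : ℝ) (hρ : 1 ≤ ρ) : ∃ (X : Type) (_ : Fintype X) (_ : Nonempty X)
    (Γ : SimpleGraph X) (g : ℕ), Good X Γ g ρ ∧ ρ ≤ g ∧ 0 < g ∧ L0 ≤ Real.log g := by
  have hu : IsUnit (2 : ZMod 3) := by decide
  obtain ⟨p, hp1, hp, hpm⟩ := Nat.forall_exists_prime_gt_and_eq_mod hu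
    (max (⌈(ρ + 1) ^ 2⌉₊) (⌈Real.exp L0⌉₊) + 2)
  have : Fact p.Prime := ⟨hp⟩
  have hpm' : p % 3 = 2 := by
    have h := (ZMod.natCast_eq_natCast_iff p 2 3).1 (by exact_mod_cast hpm)
    exact h
  have h2 : 2 < p := by omega
  have hA : ⌈(ρ + 1) ^ 2⌉₊ ≤ p := by
    have := le_max_left (⌈(ρ + 1) ^ 2⌉₊) (⌈Real.exp L0⌉₊)
    omega
  have hB : ⌈Real.exp L0⌉₊ ≤ p - 1 := by
    have := le_max_right (⌈(ρ + 1) ^ 2⌉₊) (⌈Real.exp L0⌉₊)
    omega
  have hA' : (ρ + 1) ^ 2 ≤ (p : ℝ) := (Nat.le_ceil _).trans (by exact_mod_cast hA)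
  have hB' : Real.exp L0 ≤ ((p - 1 : ℕ) : ℝ) := (Nat.le_ceil _).trans (by exact_mod_cast hB)
  have hs : ρ + 1 ≤ √(p : ℝ) := Real.le_sqrt_of_sq_le hA'
  have hp2 : (2 : ZMod p) ≠ 0 := by
    intro h
    have h5 : (p : ℕ) ∣ 2 := by
      rw [← ZMod.natCast_eq_zero_iff]
      exact_mod_cast h
    have := Nat.le_of_dvd (by norm_num) h5
    omega
  have hc : ((p - 1 : ℕ) : ℝ) = (p : ℝ) - 1 := by
    rw [Nat.cast_sub (by omega)]
    simp
  have hg : ((2 * (p - 1) : ℕ) : ℝ) = 2 * ((p : ℝ) - 1) := by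
    rw [Nat.cast_mul, hc]
    simp
  refine ⟨ZMod p × ZMod p, inferInstance, inferInstance, B1.Gr p, 2 * (p - 1),
    B1.good p hp2 hpm' ρ (by linarith) hs, ?_, by omega, ?_⟩
  · rw [hg]
    nlinarith
  · rw [hg]
    have h6 : Real.exp L0 ≤ 2 * ((p : ℝ) - 1) := by
      rw [hc] at hB'
      have := Real.exp_pos L0
      linarith
    calc L0 = Real.log (Real.exp L0) := (Real.log_exp L0).symm
      _ ≤ Real.log (2 * ((p : ℝ) - 1)) := Real.log_le_log (Real.exp_pos _) h6

end

end Pool.Agent.helper15.FH
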